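import Pool.Agent.Helper72.LS.L1

/-!
Piece LS-P2: adding and deleting one vertex.
-/

namespace Pool.Agent.Helper67.LS

open Finset
open scoped Classical
open Pool.Agent.Helper72.LS

private lemma ad_self {V : Type} (G : SimpleGraph V) (v : V) : ad G v v = 0 := by
  unfold ad
  rw [if_neg G.irrefl]

private lemma ad_symm {V : Type} (G : SimpleGraph V) (u v : V) : ad G u v = ad G v u := by
  unfold ad
  rw [G.adj_comm]

private lemma sum_ind {V : Type} [Fintype V] (A : Finset V) (f : V → ℤ) :
    ∑ x ∈ A, f x = ∑ x, (if x ∈ A then (1 : ℤ) else 0) * f x := by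
  rw [← Finset.sum_filter_add_sum_filter_not (s := univ) (p := fun x => x ∈ A)]
  have h2 : ∑ x ∈ univ.filter (fun x => ¬ x ∈ A), (if x ∈ A then (1 : ℤ) else 0) * f x = 0 := by
    apply Finset.sum_eq_zero
    intro x hx
    rw [if_neg (Finset.mem_filter.mp hx).2]
    simp
  have h1 : ∑ x ∈ univ.filter (fun x => x ∈ A), (if x ∈ A then (1 : ℤ) else 0) * f x
      = ∑ x ∈ A, f x := by
    rw [Finset.filter_mem_eq_inter, Finset.univ_inter]
    apply Finset.sum_congr rfl
    intro x hx
    rw [if_pos hx]
    simp
  rw [h1, h2, add_zero]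

private lemma sum_NG {V : Type} [Fintype V] (G : SimpleGraph V) (v : V) (f : V → ℤ) :
    ∑ x ∈ NG G v, f x = ∑ x, ad G v x * f x := by
  rw [sum_ind]
  apply Finset.sum_congr rfl
  intro x _
  unfold ad NG
  simp

/-- the graph with one more vertex, joined to `A` -/
private def addV {V : Type} (G : SimpleGraph V) (A : Finset V) : SimpleGraph (Option V) where
  Adj x y := match x, y with
    | some a, some b => G.Adj a b
    | none, some b => b ∈ A
    | some a, none => a ∈ A
    | none, none => False
  symm := ⟨fun x y h => by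
    rcases x with _ | a <;> rcases y with _ | b
    · exact h
    · exact h
    · exact h
    · exact G.adj_symm h⟩
  loopless := ⟨fun x h => by
    rcases x with _ | a
    · exact h
    · exact G.irrefl h⟩

theorem op_add_vertex {V : Type} [Fintype V] (G : SimpleGraph V) (A : Finset V) :
    ∃ Γ : SimpleGraph (Option V), em Γ = em G + A.card ∧ tm Γ = tm G + eI G A := by
  refine ⟨addV G A, ?_, ?_⟩
  · have h00 : ad (addV G A) none none = 0 := ad_self _ _
    have h01 : ∀ b, ad (addV G A) none (some b) = if b ∈ A then 1 else 0 := by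
      intro b
      unfold ad
      exact if_congr Iff.rfl rfl rfl
    have h10 : ∀ a, ad (addV G A) (some a) none = if a ∈ A then 1 else 0 := by
      intro a
      unfold ad
      exact if_congr Iff.rfl rfl rfl
    have h11 : ∀ a b, ad (addV G A) (some a) (some b) = ad G a b := by
      intro a b
      unfold ad
      exact if_congr Iff.rfl rfl rfl
    have h := two_em (addV G A)
    have hG := two_em G
    rw [Fintype.sum_option] at h
    simp only [Fintype.sum_option, h00, h01, h10, h11, Finset.sum_add_distrib] at h
    have hA : (∑ b : V, if b ∈ A then (1 : ℤ) else 0) = A.card := by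
      rw [Finset.sum_boole, Finset.filter_mem_eq_inter, Finset.univ_inter]
    rw [hA] at h
    linarith
  · have h00 : ad (addV G A) none none = 0 := ad_self _ _
    have h01 : ∀ b, ad (addV G A) none (some b) = if b ∈ A then 1 else 0 := by
      intro b
      unfold ad
      exact if_congr Iff.rfl rfl rfl
    have h10 : ∀ a, ad (addV G A) (some a) none = if a ∈ A then 1 else 0 := by
      intro a
      unfold ad
      exact if_congr Iff.rfl rfl rfl
    have h11 : ∀ a b, ad (addV G A) (some a) (some b) = ad G a b := by
      intro a b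
      unfold ad
      exact if_congr Iff.rfl rfl rfl
    have h := six_tm (addV G A)
    have hG := six_tm G
    have hE := two_eI G A
    rw [sum_ind] at hE
    simp_rw [sum_ind A] at hE
    simp only [Fintype.sum_option, h00, h01, h10, h11, Finset.sum_add_distrib, mul_zero, zero_mul,
      zero_add, add_zero, Finset.sum_const_zero] at h
    have e1 : ∑ x : V, ∑ y : V, ((if x ∈ A then (1 : ℤ) else 0) * ad G x y *
        if y ∈ A then (1 : ℤ) else 0) = 2 * eI G A := by
      rw [hE]
      apply Finset.sum_congr rfl
      intro x _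
      rw [Finset.mul_sum]
      apply Finset.sum_congr rfl
      intro y _
      ring
    have e2 : ∑ x : V, ∑ y : V, (if x ∈ A then (1 : ℤ) else 0) *
        (if y ∈ A then (1 : ℤ) else 0) * ad G x y = 2 * eI G A := by
      rw [hE]
      apply Finset.sum_congr rfl
      intro x _
      rw [Finset.mul_sum]
      apply Finset.sum_congr rfl
      intro y _
      ring
    have e3 : ∑ x : V, ∑ y : V, ad G x y * (if y ∈ A then (1 : ℤ) else 0) *
        (if x ∈ A then (1 : ℤ) else 0) = 2 * eI G A := by
      rw [hE]
      apply Finset.sum_congr rfl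
      intro x _
      rw [Finset.mul_sum]
      apply Finset.sum_congr rfl
      intro y _
      ring
    rw [e1, e2, e3] at h
    linarith

private lemma sum_ne {V : Type} [Fintype V] (v : V) (f : V → ℤ) :
    ∑ x : {x : V // x ≠ v}, f x = (∑ x, f x) - f v := by
  have h2 := Finset.add_sum_erase univ f (Finset.mem_univ v)
  rw [← Finset.sum_subtype (univ.erase v) (fun x => by simp) f]
  linarith

theorem op_del_vertex {V : Type} [Fintype V] (G : SimpleGraph V) (v : V) :
    ∃ Γ : SimpleGraph {x : V // x ≠ v}, em Γ = em G - dg G v ∧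
      tm Γ = tm G - eI G (NG G v) := by
  refine ⟨G.comap Subtype.val, ?_, ?_⟩
  · have had : ∀ x y : {x : V // x ≠ v}, ad (G.comap Subtype.val) x y = ad G x.1 y.1 := by
      intro x y
      unfold ad
      exact if_congr Iff.rfl rfl rfl
    have h := two_em (G.comap (Subtype.val : {x : V // x ≠ v} → V))
    have hG := two_em G
    simp only [had] at h
    have h1 : ∀ x : {x : V // x ≠ v}, ∑ y : {x : V // x ≠ v}, ad G x.1 y.1
        = (∑ y, ad G x.1 y) - ad G x.1 v := fun x => sum_ne v (fun y => ad G x.1 y)
    simp only [h1] at h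
    rw [sum_ne v (fun x => (∑ y, ad G x y) - ad G x v)] at h
    rw [Finset.sum_sub_distrib, ad_self] at h
    have h2 : ∑ x, ad G x v = dg G v := by
      unfold dg
      apply Finset.sum_congr rfl
      intro x _
      exact ad_symm G x v
    have h3 : ∑ y, ad G v y = dg G v := rfl
    rw [h2, h3] at h
    linarith
  · have had : ∀ x y : {x : V // x ≠ v}, ad (G.comap Subtype.val) x y = ad G x.1 y.1 := by
      intro x y
      unfold ad
      exact if_congr Iff.rfl rfl rfl
    have h := six_tm (G.comap (Subtype.val : {x : V // x ≠ v} → V))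
    have hG := six_tm G
    have hE := two_eI G (NG G v)
    rw [sum_NG] at hE
    simp_rw [sum_NG] at hE
    simp only [had] at h
    have h1 : ∀ x y : {x : V // x ≠ v}, ∑ z : {x : V // x ≠ v},
        ad G x.1 y.1 * ad G y.1 z.1 * ad G x.1 z.1
        = (∑ z, ad G x.1 y.1 * ad G y.1 z * ad G x.1 z)
          - ad G x.1 y.1 * ad G y.1 v * ad G x.1 v :=
      fun x y => sum_ne v (fun z => ad G x.1 y.1 * ad G y.1 z * ad G x.1 z)
    simp only [h1] at h
    have h2 : ∀ x : {x : V // x ≠ v}, ∑ y : {x : V // x ≠ v},
        ((∑ z, ad G x.1 y.1 * ad G y.1 z * ad G x.1 z)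
          - ad G x.1 y.1 * ad G y.1 v * ad G x.1 v)
        = (∑ y, ((∑ z, ad G x.1 y * ad G y z * ad G x.1 z)
          - ad G x.1 y * ad G y v * ad G x.1 v))
          - ((∑ z, ad G x.1 v * ad G v z * ad G x.1 z)
          - ad G x.1 v * ad G v v * ad G x.1 v) :=
      fun x => sum_ne v (fun y => (∑ z, ad G x.1 y * ad G y z * ad G x.1 z)
          - ad G x.1 y * ad G y v * ad G x.1 v)
    simp only [h2] at h
    rw [sum_ne v (fun x => (∑ y, ((∑ z, ad G x y * ad G y z * ad G x z)
          - ad G x y * ad G y v * ad G x v))
          - ((∑ z, ad G x v * ad G v z * ad G x z)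
          - ad G x v * ad G v v * ad G x v))] at h
    simp only [ad_self, mul_zero, zero_mul, sub_zero, Finset.sum_const_zero,
      Finset.sum_sub_distrib] at h
    have e1 : ∑ x : V, ∑ y : V, ad G x y * ad G y v * ad G x v = 2 * eI G (NG G v) := by
      rw [hE]
      apply Finset.sum_congr rfl
      intro x _
      rw [Finset.mul_sum]
      apply Finset.sum_congr rfl
      intro y _
      rw [ad_symm G y v, ad_symm G x v]
      ring
    have e2 : ∑ x : V, ∑ y : V, ad G x v * ad G v y * ad G x y = 2 * eI G (NG G v) := by
      rw [hE]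
      apply Finset.sum_congr rfl
      intro x _
      rw [Finset.mul_sum]
      apply Finset.sum_congr rfl
      intro y _
      rw [ad_symm G x v]
      ring
    have e3 : ∑ x : V, ∑ y : V, ad G v x * ad G x y * ad G v y = 2 * eI G (NG G v) := by
      rw [hE]
      apply Finset.sum_congr rfl
      intro x _
      rw [Finset.mul_sum]
      apply Finset.sum_congr rfl
      intro y _
      ring
    rw [e1, e2, e3] at h
    linarith

end Pool.Agent.Helper67.LS
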